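import Pool.Agent.Lib.MP_703675_gt.Final

set_option autoImplicit false

open Set Filter Topology

namespace Pool.Agent.Results.MP_703675_gt.ThirdHomogeneous

/-- `A` is an arc with end points `a` and `b` -/
def IsArc {X : Type} [TopologicalSpace X] (A : Set X) (a b : X) : Prop :=
  ∃ γ : unitInterval → X, Continuous γ ∧ Function.Injective γ ∧ γ 0 = a ∧ γ 1 = b ∧ range γ = A

/-- `A` is an arc from `a` to `b`, or the point `a` if `a = b` -/
def IsSeg {X : Type} [TopologicalSpace X] (A : Set X) (a b : X) : Prop :=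
  (a = b ∧ A = {a}) ∨ IsArc A a b

/-- arcwise connected, hereditarily unicoherent continuum -/
def IsDendroid (X : Type) [MetricSpace X] : Prop :=
  CompactSpace X ∧ ConnectedSpace X ∧ (∀ a b : X, a ≠ b → ∃ A, IsArc A a b) ∧
    ∀ A B : Set X, IsCompact A → IsConnected A → IsCompact B → IsConnected B →
      IsPreconnected (A ∩ B)

/-- smoothness with respect to some point -/
def IsSmooth (X : Type) [MetricSpace X] : Prop :=
  ∃ p : X, ∀ (x : ℕ → X) (y : X) (A : ℕ → Set X) (B : Set X), Tendsto x atTop (𝓝 y) →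
    (∀ k, IsSeg (A k) p (x k)) → IsSeg B p y →
    Tendsto (fun k => Metric.hausdorffEDist (A k) B) atTop (𝓝 0)

/-- locally connected continuum without simple closed curves -/
def IsDendrite (X : Type) [MetricSpace X] : Prop :=
  CompactSpace X ∧ ConnectedSpace X ∧ LocallyConnectedSpace X ∧
    ¬ ∃ f : Circle → X, Continuous f ∧ Function.Injective f

/-- vertex of a simple triod -/
def IsRamification {X : Type} [TopologicalSpace X] (t : X) : Prop :=
  ∃ (A B C : Set X) (a b c : X), IsArc A t a ∧ IsArc B t b ∧ IsArc C t c ∧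
    A ∩ B = {t} ∧ A ∩ C = {t} ∧ B ∩ C = {t}

/-- dendroid with exactly one ramification point -/
def IsFan (X : Type) [MetricSpace X] : Prop := IsDendroid X ∧ ∃! t : X, IsRamification t

/-- number of orbits of the homeomorphism group -/
noncomputable def homogeneityDegree (X : Type) [TopologicalSpace X] : ℕ∞ :=
  (range fun x : X => {y : X | ∃ h : X ≃ₜ X, h x = y}).encard

theorem arc_eq {X : Type} [MetricSpace X]
    (hu : ∀ A B : Set X, IsClosed A → IsConnected A → IsClosed B → IsConnected B →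
      IsPreconnected (A ∩ B)) {A : Set X} {a b : X} (h : IsSeg A a b) :
    Pool.Agent.MP703675.arcSet a b = A := by
  rcases h with ⟨rfl, rfl⟩ | ⟨γ, hc, hi, rfl, rfl, rfl⟩
  · refine Subset.antisymm (fun z hz => hz _ isClosed_singleton isConnected_singleton rfl rfl) ?_
    rintro z rfl C _ _ h _
    exact h
  · have h1 : IsClosed (range γ) := (isCompact_range hc).isClosed
    have h2 : IsConnected (range γ) := isConnected_range hc
    refine Subset.antisymm (fun z hz => hz _ h1 h2 (mem_range_self _) (mem_range_self _)) ?_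
    rintro z ⟨t, rfl⟩ C c1 c2 c3 c4
    have h3 := hu C (range γ) c1 c2 h1 h2
    have h4 : IsPreconnected (γ ⁻¹' C) := by
      rw [← (hc.isClosedEmbedding hi).isInducing.isPreconnected_image, image_preimage_eq_inter_range]
      exact h3
    exact h4.Icc_subset (a := 0) (b := 1) c3 c4 ⟨t.2.1, t.2.2⟩

theorem IsArc.ne {X : Type} [TopologicalSpace X] {A : Set X} {a b : X} (h : IsArc A a b) :
    b ≠ a := by
  obtain ⟨γ, -, hi, rfl, rfl, -⟩ := h
  exact fun e => one_ne_zero (hi e)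

theorem IsSeg.compact {X : Type} [TopologicalSpace X] {A : Set X} {a b : X} (h : IsSeg A a b) :
    IsCompact A ∧ A.Nonempty := by
  rcases h with ⟨-, rfl⟩ | ⟨γ, hc, -, -, -, rfl⟩
  · exact ⟨isCompact_singleton, singleton_nonempty _⟩
  · exact ⟨isCompact_range hc, range_nonempty _⟩

theorem orbit_eq {X : Type} [TopologicalSpace X] {a w : X} (h : ∃ h : X ≃ₜ X, h a = w) :
    {y : X | ∃ h : X ≃ₜ X, h w = y} = {y : X | ∃ h : X ≃ₜ X, h a = y} := by
  obtain ⟨f, rfl⟩ := h
  ext y
  constructor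
  · rintro ⟨g, rfl⟩
    exact ⟨f.trans g, rfl⟩
  · rintro ⟨g, rfl⟩
    exact ⟨f.symm.trans g, by simp⟩

theorem orbit_ne {X : Type} [TopologicalSpace X] {a b : X} (h : ¬ ∃ h : X ≃ₜ X, h a = b) :
    {y : X | ∃ h : X ≃ₜ X, h a = y} ≠ {y : X | ∃ h : X ≃ₜ X, h b = y} := by
  intro e
  have h1 : b ∈ {y : X | ∃ h : X ≃ₜ X, h b = y} := ⟨Homeomorph.refl X, rfl⟩
  rw [← e] at h1
  exact h h1

theorem of_tree {X : Type} [MetricSpace X] [hK : CompactSpace X] {le : X → X → Prop} {p : X}
    {U : X → ℝ} (hT : Pool.Agent.MP703675.TreeData X le p U) : IsDendroid X ∧ IsSmooth X ∧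
    homogeneityDegree X = 3 ∧ ¬ IsDendrite X ∧ ¬ IsFan X := by
  obtain ⟨h1, h2, h3, ⟨p, h4⟩, h5, h6, a, b, c, hab, hac, hbc, h7⟩ := hT.main
  have harc : ∀ a b : X, a ≠ b → ∃ A, IsArc A a b := fun a b h => by
    obtain ⟨γ, c1, c2, c3, c4⟩ := h2 a b h
    exact ⟨_, γ, c1, c2, c3, c4, rfl⟩
  refine ⟨⟨hK, h1, harc, fun A B a1 a2 b1 b2 => h3 A B a1.isClosed a2 b1.isClosed b2⟩,
    ⟨p, fun x y A B hx hA hB => ?_⟩, ?_, fun h => h5 h.2.2.1, fun h => h6 ?_⟩
  · have h8 := h4 x y hx
    simp only [arc_eq h3 hB, fun k => arc_eq h3 (hA k)] at h8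
    have h9 : ∀ k, Metric.hausdorffEDist (A k) B = ENNReal.ofReal (Metric.hausdorffDist (A k) B) :=
      fun k => (ENNReal.ofReal_toReal (Metric.hausdorffEDist_ne_top_of_nonempty_of_bounded
        (hA k).compact.2 hB.compact.2 (hA k).compact.1.isBounded hB.compact.1.isBounded)).symm
    simp only [h9]
    simpa using ENNReal.tendsto_ofReal h8
  · refine encard_eq_three.mpr ⟨_, _, _, orbit_ne hab, orbit_ne hac, orbit_ne hbc, ?_⟩
    ext S
    constructor
    · rintro ⟨w, rfl⟩
      rcases h7 w with h | h | h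
      · exact Or.inl (orbit_eq h)
      · exact Or.inr (Or.inl (orbit_eq h))
      · exact Or.inr (Or.inr (orbit_eq h))
    · rintro (rfl | rfl | rfl) <;> exact mem_range_self _
  · refine (existsUnique_congr fun t => ?_).mp h.2
    constructor
    · rintro ⟨A, B, C, a, b, c, ha, hb, hc, e1, e2, e3⟩
      refine ⟨a, b, c, ha.ne, hb.ne, hc.ne, ?_⟩
      rw [arc_eq h3 (Or.inr ha), arc_eq h3 (Or.inr hb), arc_eq h3 (Or.inr hc)]
      exact ⟨e1, e2, e3⟩
    · rintro ⟨a, b, c, ha, hb, hc, e⟩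
      obtain ⟨A, hA⟩ := harc t a ha.symm
      obtain ⟨B, hB⟩ := harc t b hb.symm
      obtain ⟨C, hC⟩ := harc t c hc.symm
      rw [arc_eq h3 (Or.inr hA), arc_eq h3 (Or.inr hB), arc_eq h3 (Or.inr hC)] at e
      exact ⟨A, B, C, a, b, c, hA, hB, hC, e⟩

theorem result : ∃ (X : Type) (_ : MetricSpace X), IsDendroid X ∧ IsSmooth X ∧
    homogeneityDegree X = 3 ∧ ¬ IsDendrite X ∧ ¬ IsFan X := by
  obtain ⟨Wd⟩ := Pool.Agent.MP703675.world_exists
  have hK : CompactSpace Wd.X := Wd.compactSpace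
  exact ⟨Wd.X, TopologicalSpace.metrizableSpaceMetric Wd.X,
    @of_tree Wd.X (TopologicalSpace.metrizableSpaceMetric Wd.X) hK _ _ _ Wd.treeData⟩

end Pool.Agent.Results.MP_703675_gt.ThirdHomogeneous
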